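import Pool.Agent.Y352.WP.Oa

/-!
# Counting permutations and tuples of permutations
-/

set_option autoImplicit false

namespace Pool.Agent.Y352.WP

open Finset

theorem two_card_perm_le {R : Type} [Fintype R] [DecidableEq R] (h : R → R → ZMod 2)
    (hrow : ∀ p p', p ≠ p' → ∃ a, h p a ≠ h p' a) (i i' : R) (hi : i ≠ i')
    (hR : 3 ≤ Fintype.card R) (g : R → ZMod 2) :
    2 * (univ.filter fun σ : Equiv.Perm R => ∀ j, h (σ i) j + h (σ i') j = g j).card ≤
      Fintype.card (Equiv.Perm R) := by
  classical
  obtain ⟨k, hk⟩ : ∃ k : R, k ∉ ({i, i'} : Finset R) := by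
    by_contra hcon
    have h1 : (univ : Finset R) ⊆ {i, i'} := fun x _ => by
      by_contra hx
      exact hcon ⟨x, hx⟩
    have h2 := card_le_card h1
    rw [card_univ] at h2
    have h3 : ({i, i'} : Finset R).card ≤ 2 := card_le_two
    omega
  rw [mem_insert, mem_singleton, not_or] at hk
  obtain ⟨hk1, hk2⟩ := hk
  set S : Finset (Equiv.Perm R) :=
    univ.filter fun σ : Equiv.Perm R => ∀ j, h (σ i) j + h (σ i') j = g j with hS
  set T : Finset (Equiv.Perm R) := S.image (fun σ => σ * Equiv.swap i' k) with hT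
  have hTc : T.card = S.card := card_image_of_injective _ (mul_left_injective _)
  have hd : Disjoint S T := by
    rw [disjoint_left]
    intro σ hσ hσT
    rw [hT, mem_image] at hσT
    obtain ⟨τ, hτ, rfl⟩ := hσT
    rw [hS, mem_filter] at hσ hτ
    have e1 : (τ * Equiv.swap i' k) i = τ i := by
      rw [Equiv.Perm.mul_apply, Equiv.swap_apply_of_ne_of_ne hi (Ne.symm hk1)]
    have e2 : (τ * Equiv.swap i' k) i' = τ k := by
      rw [Equiv.Perm.mul_apply, Equiv.swap_apply_left]
    have hne : τ k ≠ τ i' := fun he => hk2 (τ.injective he)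
    obtain ⟨a, ha⟩ := hrow _ _ hne
    apply ha
    have h1 := hσ.2 a
    have h2 := hτ.2 a
    rw [e1, e2] at h1
    rw [← h2] at h1
    exact add_left_cancel h1
  have h4 : (S ∪ T).card ≤ Fintype.card (Equiv.Perm R) := by
    rw [← card_univ]
    exact card_le_card (subset_univ _)
  rw [card_union_of_disjoint hd, hTc] at h4
  omega

theorem tuple_card_le {W P : Type} [Fintype W] [DecidableEq W] [Fintype P] [DecidableEq P]
    (F : Finset W) (T : W → Finset P) (hT : ∀ w ∈ F, 2 * (T w).card ≤ Fintype.card P) :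
    2 ^ F.card * (univ.filter fun π : W → P => ∀ w ∈ F, π w ∈ T w).card ≤
      Fintype.card (W → P) := by
  classical
  have h1 : (univ.filter fun π : W → P => ∀ w ∈ F, π w ∈ T w) =
      Fintype.piFinset (fun w => if w ∈ F then T w else univ) := by
    ext π
    rw [mem_filter, Fintype.mem_piFinset]
    constructor
    · rintro ⟨-, hπ⟩ w
      by_cases hw : w ∈ F
      · rw [if_pos hw]; exact hπ w hw
      · rw [if_neg hw]; exact mem_univ _
    · intro hπ
      refine ⟨mem_univ _, fun w hw => ?_⟩
      have := hπ w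
      rwa [if_pos hw] at this
  have h2 : (2 : ℕ) ^ F.card = ∏ w : W, (if w ∈ F then 2 else 1) := by
    rw [prod_ite, prod_const, prod_const_one, mul_one, filter_mem_eq_inter, univ_inter]
  have h3 : Fintype.card P ^ Fintype.card W = ∏ _w : W, Fintype.card P := by
    rw [prod_const, card_univ]
  rw [h1, Fintype.card_piFinset, h2, ← prod_mul_distrib, Fintype.card_fun, h3]
  refine prod_le_prod' fun w _ => ?_
  by_cases hw : w ∈ F
  · rw [if_pos hw, if_pos hw]; exact hT w hw
  · rw [if_neg hw, if_neg hw, one_mul, card_univ]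

end Pool.Agent.Y352.WP
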