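import Pool.Agent.H397R2.LogDense
import Pool.Agent.Results.MP_1a6900_co.WidthPackingOrder

/-!
# Every large number is close to a product `12 ^ (t i) 2 ^ s`, and the labelling of the columns
-/

set_option autoImplicit false

namespace Pool.Agent.Y352.WP

open Finset

theorem three_pow_ne (a b : ℕ) (ha : 1 ≤ a) : 3 ^ a ≠ 2 ^ b := by
  intro h
  have h1 : Odd (3 ^ a) := Odd.pow (by decide)
  rw [h] at h1
  rcases Nat.eq_zero_or_pos b with hb | hb
  · subst hb
    have : 3 ^ 1 ≤ 3 ^ a := Nat.pow_le_pow_right (by norm_num) ha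
    rw [h] at this
    norm_num at this
  · have h2 : Even (2 ^ b) := (Nat.even_pow.mpr ⟨by decide, by omega⟩)
    exact (Nat.not_even_iff_odd.mpr h1) h2

theorem dens {ε : ℝ} (hε : 0 < ε) : ∃ t I : ℕ, 1 ≤ t ∧ ∀ S : ℕ, ∃ n0 : ℕ, ∀ n : ℕ, n0 ≤ n →
    ∃ i s : ℕ, 1 ≤ i ∧ i ≤ I ∧ S ≤ s ∧ n ≤ 12 ^ (t * i) * (2 ^ s - 1) ∧
      ((12 : ℝ) ^ (t * i) * 2 ^ s) ≤ (1 + ε) ^ 2 * n := by
  obtain ⟨j, t, h1, h2⟩ := Pool.Agent.H397R2.exists_pow_between (K := 3) (by norm_num)
    three_pow_ne (x := 1 / (1 + ε)) (y := 1) (by positivity)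
    (by rw [div_lt_one (by linarith)]; linarith)
  push_cast at h1 h2
  rw [one_mul] at h2
  have ht : 1 ≤ t := by
    by_contra ht
    have : t = 0 := by omega
    subst this
    rw [pow_zero] at h2
    have : (1 : ℝ) ≤ 2 ^ j := one_le_pow₀ (by norm_num)
    linarith
  have h2j : (0 : ℝ) < 2 ^ j := by positivity
  set ρ : ℝ := 3 ^ t / 2 ^ j with hρ
  have hρ1 : 1 < ρ := by rw [hρ, lt_div_iff₀ h2j]; linarith
  have hρ2 : ρ ≤ 1 + ε := by
    rw [hρ, div_le_iff₀ h2j]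
    rw [one_div, inv_mul_lt_iff₀ (by linarith)] at h1
    linarith
  obtain ⟨I, hI⟩ := pow_unbounded_of_one_lt 2 hρ1
  have hI1 : 1 ≤ I := by
    by_contra hI0
    have : I = 0 := by omega
    subst this
    rw [pow_zero] at hI
    linarith
  refine ⟨t, I, ht, fun S => ?_⟩
  set rmax : ℕ := 12 ^ (t * I) with hrmax
  obtain ⟨n1, hn1⟩ := exists_nat_ge ((rmax : ℝ) / ε)
  refine ⟨2 ^ (S + (j + 2 * t) * I) + n1, fun n hn => ?_⟩
  have hpow : 0 < 2 ^ (S + (j + 2 * t) * I) := by positivity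
  set x : ℕ := n + rmax with hx
  have hr0 : 0 < rmax := by rw [hrmax]; positivity
  have hnx : n ≤ x := by rw [hx]; exact Nat.le_add_right _ _
  have hx0 : x ≠ 0 := by
    rw [hx]
    exact (Nat.add_pos_right n hr0).ne'
  set s0 : ℕ := Nat.log 2 x with hs0
  have hs1 : 2 ^ s0 ≤ x := Nat.pow_log_le_self 2 hx0
  have hs2 : x < 2 ^ (s0 + 1) := Nat.lt_pow_succ_log_self (by norm_num) x
  have hs3 : S + (j + 2 * t) * I ≤ s0 := by
    rw [hs0]
    apply Nat.le_log_of_pow_le (by norm_num)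
    exact ((Nat.le_add_right _ _).trans hn).trans hnx
  have hs1' : (2 : ℝ) ^ s0 ≤ x := by exact_mod_cast hs1
  have hs2' : (x : ℝ) ≤ 2 * 2 ^ s0 := by
    have : (x : ℝ) < 2 ^ (s0 + 1) := by exact_mod_cast hs2
    rw [pow_succ] at this
    linarith
  have h2s0 : (0 : ℝ) < 2 ^ s0 := by positivity
  have hex : ∃ i : ℕ, 1 ≤ i ∧ (x : ℝ) ≤ ρ ^ i * 2 ^ s0 := by
    refine ⟨I, hI1, hs2'.trans ?_⟩
    exact mul_le_mul_of_nonneg_right hI.le h2s0.le
  classical
  set i : ℕ := Nat.find hex with hi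
  obtain ⟨hi1, hi2⟩ := Nat.find_spec hex
  rw [← hi] at hi1 hi2
  have hiI : i ≤ I := Nat.find_min' hex ⟨hI1, hs2'.trans (mul_le_mul_of_nonneg_right hI.le h2s0.le)⟩
  have hup : ρ ^ i * 2 ^ s0 ≤ ρ * x := by
    rcases Nat.lt_or_ge 1 i with h | h
    · have h3 := Nat.find_min hex (m := i - 1) (by omega)
      rw [not_and, not_le] at h3
      have h4 := h3 (by omega)
      have h5 : ρ ^ i = ρ * ρ ^ (i - 1) := by
        rw [← pow_succ']
        congr 1
        omega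
      rw [h5, mul_assoc]
      exact mul_le_mul_of_nonneg_left h4.le (by linarith)
    · have h3 : i = 1 := by omega
      rw [h3, pow_one]
      exact mul_le_mul_of_nonneg_left hs1' (by linarith)
  have hji : (j + 2 * t) * i ≤ (j + 2 * t) * I := Nat.mul_le_mul_left _ hiI
  obtain ⟨s, hs⟩ : ∃ s, s0 = s + (j + 2 * t) * i := ⟨s0 - (j + 2 * t) * i, by omega⟩
  have hm : (12 : ℝ) ^ (t * i) * 2 ^ s = ρ ^ i * 2 ^ s0 := by
    rw [hρ, div_pow, hs, pow_add, add_mul, pow_add, ← pow_mul, ← pow_mul]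
    have h12 : (12 : ℝ) ^ (t * i) = 3 ^ (t * i) * 2 ^ (2 * t * i) := by
      rw [show 2 * t * i = 2 * (t * i) by ring, pow_mul 2 2 (t * i), ← mul_pow]
      norm_num
    rw [h12]
    have : (2 : ℝ) ^ (j * i) ≠ 0 := by positivity
    field_simp
  refine ⟨i, s, hi1, hiI, by omega, ?_, ?_⟩
  · have h6 : (x : ℝ) ≤ ((12 ^ (t * i) * 2 ^ s : ℕ) : ℝ) := by
      push_cast
      rw [hm]
      exact hi2
    have h7 : x ≤ 12 ^ (t * i) * 2 ^ s := by exact_mod_cast h6
    have h8 : 12 ^ (t * i) ≤ rmax := by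
      rw [hrmax]
      exact Nat.pow_le_pow_right (by norm_num) (Nat.mul_le_mul_left _ hiI)
    rw [Nat.mul_sub, mul_one]
    omega
  · rw [hm]
    refine hup.trans ?_
    have h9 : (x : ℝ) ≤ (1 + ε) * n := by
      have h10 : (rmax : ℝ) ≤ ε * n := by
        have h11 : (rmax : ℝ) / ε ≤ n := hn1.trans (by exact_mod_cast (by omega : n1 ≤ n))
        rw [div_le_iff₀ hε] at h11
        linarith
      rw [hx]
      push_cast
      linarith
    have hx0' : (0 : ℝ) ≤ x := Nat.cast_nonneg _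
    calc ρ * (x : ℝ) ≤ (1 + ε) * x := mul_le_mul_of_nonneg_right hρ2 hx0'
      _ ≤ (1 + ε) * ((1 + ε) * n) := mul_le_mul_of_nonneg_left h9 (by linarith)
      _ = (1 + ε) ^ 2 * n := by ring

/-- the labelling of the coordinates, block by block -/
theorem columns (R : Type) [Fintype R] (hR : 0 < Fintype.card R) (n s : ℕ)
    (hn : n ≤ Fintype.card R * (2 ^ s - 1)) :
    ∃ (jc : Fin n → R) (wc : Fin n → (Fin s → ZMod 2)) (F : Finset (Fin s → ZMod 2)),
      (∀ c, wc c ≠ 0) ∧ (∀ c c', jc c = jc c' → wc c = wc c' → c = c') ∧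
      (∀ w ∈ F, ∀ j, ∃ c, jc c = j ∧ wc c = w) ∧ F.card = n / Fintype.card R := by
  classical
  set r : ℕ := Fintype.card R with hr
  have hcard : Fintype.card {v : Fin s → ZMod 2 // v ≠ 0} = 2 ^ s - 1 := by
    rw [Fintype.card_subtype_compl]
    simp [ZMod.card]
  have eR : Fin r ≃ R := (Fintype.equivFin R).symm
  have eW : Fin (2 ^ s - 1) ≃ {v : Fin s → ZMod 2 // v ≠ 0} :=
    (Fintype.equivFinOfCardEq hcard).symm
  have hq : ∀ c : Fin n, (c : ℕ) / r < 2 ^ s - 1 := by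
    intro c
    rw [Nat.div_lt_iff_lt_mul hR]
    have := c.2
    rw [mul_comm] at hn
    omega
  have hq2 : ∀ q : Fin (n / r), (q : ℕ) < 2 ^ s - 1 := by
    intro q
    have h1 := q.2
    have h2 : n / r ≤ 2 ^ s - 1 := by
      apply Nat.div_le_of_le_mul
      exact hn
    omega
  refine ⟨fun c => eR ⟨(c : ℕ) % r, Nat.mod_lt _ hR⟩, fun c => (eW ⟨(c : ℕ) / r, hq c⟩).1,
    (univ : Finset (Fin (n / r))).image (fun q : Fin (n / r) => (eW ⟨q.1, hq2 q⟩).1), ?_, ?_, ?_, ?_⟩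
  · intro c
    exact (eW ⟨(c : ℕ) / r, hq c⟩).2
  · intro c c' h1 h2
    have h3 : (c : ℕ) % r = (c' : ℕ) % r := by
      have := eR.injective h1
      exact congrArg Fin.val this
    have h4 : (c : ℕ) / r = (c' : ℕ) / r := by
      have := eW.injective (Subtype.ext h2)
      exact congrArg Fin.val this
    ext
    rw [← Nat.div_add_mod (c : ℕ) r, ← Nat.div_add_mod (c' : ℕ) r, h3, h4]
  · intro w hw j
    rw [mem_image] at hw
    obtain ⟨q, -, rfl⟩ := hw
    obtain ⟨a, rfl⟩ := eR.surjective j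
    have h1 : (q : ℕ) * r + a < n := by
      have h2 := q.2
      have h3 := a.2
      have h4 : ((q : ℕ) + 1) * r ≤ n := by
        calc ((q : ℕ) + 1) * r ≤ (n / r) * r := Nat.mul_le_mul_right _ h2
          _ ≤ n := Nat.div_mul_le_self n r
      rw [add_mul, one_mul] at h4
      omega
    refine ⟨⟨(q : ℕ) * r + a, h1⟩, ?_, ?_⟩
    · have h5 : ((q : ℕ) * r + a) % r = a := by
        rw [Nat.mul_comm, Nat.mul_add_mod]
        exact Nat.mod_eq_of_lt a.2
      show eR ⟨((q : ℕ) * r + a) % r, _⟩ = eR a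
      congr 1
      ext
      exact h5
    · have h5 : ((q : ℕ) * r + a) / r = q := by
        rw [Nat.mul_comm, Nat.mul_add_div hR, Nat.div_eq_of_lt a.2, add_zero]
      show (eW ⟨((q : ℕ) * r + a) / r, _⟩).1 = (eW ⟨(q : ℕ), _⟩).1
      congr 2
      ext
      exact h5
  · rw [card_image_of_injective, card_univ, Fintype.card_fin]
    intro q q' h
    have := eW.injective (Subtype.ext h)
    ext
    exact Fin.mk.inj_iff.mp this

end Pool.Agent.Y352.WP
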