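import Pool.Agent.Results.MP_1a6900_co.WidthPackingOrder

/-!
# Hadamard matrices of order `12 ^ b` over the field with two elements
-/

set_option autoImplicit false

namespace Pool.Agent.Y352.WP

open Finset
open Pool.Agent.Results.MP_1a6900_co.WidthPackingOrder

/-- the rows of a Hadamard matrix of order `12`, as binary numbers -/
def tab : Fin 12 → ℕ := ![0, 1141, 2281, 467, 933, 1865, 3729, 3363, 2631, 1167, 2333, 571]

/-- a Hadamard matrix of order `12`, written over the field with two elements -/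
def h12 (i j : Fin 12) : ZMod 2 := if (tab i).testBit j then 1 else 0

theorem h12_cols : ∀ j j' : Fin 12, j ≠ j' →
    (univ.filter fun i : Fin 12 => (tab i).testBit j ≠ (tab i).testBit j').card = 6 := by
  decide

theorem h12_rows : ∀ p p' : Fin 12, p ≠ p' → ∃ a a' : Fin 12,
    h12 p a + h12 p' a ≠ h12 p a' + h12 p' a' := by
  decide

theorem sgn_h12 (i j j' : Fin 12) : sgn (h12 i j + h12 i j') =
    1 - 2 * (if (tab i).testBit j ≠ (tab i).testBit j' then (1 : ℝ) else 0) := by
  unfold h12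
  have h11 : (1 : ZMod 2) + 1 = 0 := rfl
  cases h1 : (tab i).testBit j <;> cases h2 : (tab i).testBit j' <;>
    simp [sgn_zero, sgn_one, h11] <;> norm_num

theorem h12_orth (j j' : Fin 12) (hj : j ≠ j') : ∑ i, sgn (h12 i j + h12 i j') = 0 := by
  simp only [sgn_h12]
  rw [sum_sub_distrib, ← mul_sum, sum_boole, h12_cols j j' hj]
  simp
  norm_num

/-- the tensor powers -/
def hT {b : ℕ} (p q : Fin b → Fin 12) : ZMod 2 := ∑ l, h12 (p l) (q l)

theorem sgn_sum {ι : Type} [DecidableEq ι] (s : Finset ι) (f : ι → ZMod 2) :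
    sgn (∑ l ∈ s, f l) = ∏ l ∈ s, sgn (f l) := by
  induction s using Finset.induction_on with
  | empty => simp [sgn_zero]
  | insert a s ha ih => rw [sum_insert ha, prod_insert ha, sgn_add, ih]

theorem hT_orth {b : ℕ} (q q' : Fin b → Fin 12) (hq : q ≠ q') :
    ∑ p, sgn (hT p q + hT p q') = 0 := by
  obtain ⟨l0, hl0⟩ := Function.ne_iff.mp hq
  have h1 : ∀ p : Fin b → Fin 12, sgn (hT p q + hT p q') =
      ∏ l, sgn (h12 (p l) (q l) + h12 (p l) (q' l)) := by
    intro p
    unfold hT
    rw [← sum_add_distrib, sgn_sum]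
  simp only [h1]
  have h2 := (Finset.prod_univ_sum (fun _ : Fin b => (univ : Finset (Fin 12)))
    (fun l i => sgn (h12 i (q l) + h12 i (q' l))))
  rw [Fintype.piFinset_univ] at h2
  rw [← h2]
  exact prod_eq_zero (mem_univ l0) (h12_orth _ _ hl0)

theorem hT_rows {b : ℕ} (p p' : Fin b → Fin 12) (hp : p ≠ p') : ∃ a a' : Fin b → Fin 12,
    hT p a + hT p' a ≠ hT p a' + hT p' a' := by
  obtain ⟨l0, hl0⟩ := Function.ne_iff.mp hp
  obtain ⟨a, a', ha⟩ := h12_rows _ _ hl0
  refine ⟨Function.update 0 l0 a, Function.update 0 l0 a', ?_⟩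
  have h1 : ∀ c : Fin 12, hT p (Function.update 0 l0 c) + hT p' (Function.update 0 l0 c) =
      (h12 (p l0) c + h12 (p' l0) c) +
        ∑ l ∈ univ.erase l0, (h12 (p l) 0 + h12 (p' l) 0) := by
    intro c
    unfold hT
    rw [← sum_add_distrib, ← add_sum_erase _ _ (mem_univ l0)]
    congr 1
    · simp
    · refine sum_congr rfl fun l hl => ?_
      rw [Function.update_of_ne (ne_of_mem_erase hl)]
      rfl
  rw [h1, h1]
  intro h
  exact ha (add_right_cancel h)

end Pool.Agent.Y352.WP
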