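import Pool.Agent.Y352.WP.Pack
import Pool.Agent.Y352.WP.Dens

/-!
# The asymptotic lower bound for the packing number
-/

set_option autoImplicit false

namespace Pool.Agent.Y352.WP

open Finset
open Pool.Agent.Results.MP_1a6900_co.WidthPackingOrder

theorem card_Qt {n s : ℕ} (wc : Fin n → (Fin s → ZMod 2)) :
    (2 : ℝ) ^ n ≤ (Nat.card (Qt wc) : ℝ) * 2 ^ s := by
  have hCcard : Nat.card (code wc).range ≤ 2 ^ s := by
    have h1 : Nat.card (code wc).range ≤ Nat.card (Fin s → ZMod 2) :=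
      Nat.card_le_card_of_surjective (code wc).rangeRestrict (code wc).rangeRestrict_surjective
    refine h1.trans ?_
    simp [Nat.card_eq_fintype_card, ZMod.card]
  have hindex : Nat.card (code wc).range * (code wc).range.index = 2 ^ n := by
    rw [AddSubgroup.card_mul_index]
    simp [Nat.card_eq_fintype_card, ZMod.card]
  have h2 : Nat.card (Qt wc) = (code wc).range.index := rfl
  have h3 : 2 ^ n ≤ Nat.card (Qt wc) * 2 ^ s := by
    rw [h2, ← hindex, mul_comm]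
    exact Nat.mul_le_mul_left _ hCcard
  exact_mod_cast h3

theorem N_ge_matching {R : Type} [Fintype R] [Nonempty R] {n s : ℕ} (hn : 1 ≤ n)
    (h : R → R → ZMod 2) (hh : ∀ j j', j ≠ j' → ∑ i, sgn (h i j + h i j') = 0)
    (jc : Fin n → R) (wc : Fin n → (Fin s → ZMod 2)) (hw : ∀ c, wc c ≠ 0)
    (hinj : ∀ c c', jc c = jc c' → wc c = wc c' → c = c')
    (M : Finset (Qt wc × Tup s R))
    (hM : ∀ e ∈ M, ∀ f ∈ M, e ≠ f → Disjoint (edge h jc wc e) (edge h jc wc f))
    {t : ℝ} (ht0 : 0 < t) (ht1 : t ≤ 1) : M.card ≤ N n t := by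
  classical
  apply le_csSup (bddAbove_packings n ht0)
  have e : Fin M.card ≃ M := M.equivFin.symm
  refine ⟨fun i => emb '' {x | mkq wc x ∈ edge h jc wc (e i).1}, ?_, ?_, ?_, ?_⟩
  · intro i
    obtain ⟨q, hq⟩ := edge_nonempty h jc wc (e i).1
    obtain ⟨a, ha⟩ := QuotientAddGroup.mk_surjective q
    refine ⟨emb a, a, ?_, rfl⟩
    show mkq wc a ∈ edge h jc wc (e i).1
    rw [show mkq wc a = q from ha]
    exact hq
  · rintro i _ ⟨z, _, rfl⟩
    exact emb_mem_cube z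
  · intro i j hij
    have hne : (e i).1 ≠ (e j).1 := fun h0 => hij (e.injective (Subtype.ext h0))
    have hd := hM _ (e i).2 _ (e j).2 hne
    rw [Set.disjoint_left]
    rintro _ ⟨z, hz, rfl⟩ ⟨z', hz', hzz'⟩
    have h1 : z' = z := emb_injective hzz'
    subst h1
    exact (Finset.disjoint_left.mp hd) hz hz'
  · intro i
    obtain ⟨z, hz⟩ := QuotientAddGroup.mk_surjective (e i).1.1
    refine ht1.trans (one_le_width_array (ι := R × (Fin s → ZMod 2)) hn
      (arr h jc wc (e i).1.2 z) (arr_balanced h jc wc hw _ z)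
      (arr_orth h hh jc wc hinj _ z) _ ?_ ?_)
    · rintro _ ⟨z, _, rfl⟩
      exact emb_mem_cube z
    · intro x
      refine ⟨arr h jc wc (e i).1.2 z x, ?_, rfl⟩
      show mkq wc (arr h jc wc (e i).1.2 z x) ∈ edge h jc wc (e i).1
      rw [mem_edge]
      refine ⟨x.1, ?_⟩
      rw [← hz]
      show (QuotientAddGroup.mk (base h jc wc (e i).1.2 x.1) : Qt wc) + QuotientAddGroup.mk z =
        QuotientAddGroup.mk (arr h jc wc (e i).1.2 z x)
      rw [← QuotientAddGroup.mk_add]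
      have h2 : arr h jc wc (e i).1.2 z x =
          (base h jc wc (e i).1.2 x.1 + z) + code wc x.2 := rfl
      rw [h2]
      have h3 : code wc x.2 ∈ (code wc).range := ⟨x.2, rfl⟩
      exact (QuotientAddGroup.mk_add_of_mem _ h3).symm

theorem pow_ge (s : ℕ) (hs : 6 ≤ s) : 2 * s ≤ 2 ^ (s - 2) := by
  obtain ⟨u, rfl⟩ : ∃ u, s = u + 6 := ⟨s - 6, by omega⟩
  rw [show u + 6 - 2 = u + 4 by omega]
  induction u with
  | zero => norm_num
  | succ u ih =>
    have := ih (by omega)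
    rw [show u + 1 + 4 = (u + 4) + 1 by ring, pow_succ]
    omega

/-- asymptotically optimal packings of sets of width at least one -/
theorem lower {δ : ℝ} (hδ : 0 < δ) (hδ1 : δ ≤ 1) : ∃ n0 : ℕ, ∀ n : ℕ, n0 ≤ n → ∀ t : ℝ, 0 < t →
    t ≤ 1 → (1 - δ) * (2 : ℝ) ^ n ≤ (1 + δ) ^ 2 * n * N n t := by
  classical
  obtain ⟨t, I, ht, hdens⟩ := dens hδ
  -- the thresholds of the nibble
  have hthr : ∀ i : ℕ, ∃ S : ℕ, 1 ≤ i → ∀ (n s : ℕ) (jc : Fin n → (Fin (t * i) → Fin 12))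
      (wc : Fin n → (Fin s → ZMod 2)) (F : Finset (Fin s → ZMod 2)),
      (∀ w ∈ F, ∀ j, ∃ c, jc c = j ∧ wc c = w) → S ≤ s → 2 * s ≤ F.card →
      ∃ M : Finset (Qt wc × Tup s (Fin (t * i) → Fin 12)),
        (∀ e ∈ M, ∀ f ∈ M, e ≠ f → Disjoint (edge hT jc wc e) (edge hT jc wc f)) ∧
        (1 - δ) * (Nat.card (Qt wc) : ℝ) ≤ (12 : ℝ) ^ (t * i) * (M.card : ℝ) := by
    intro i
    by_cases hi : 1 ≤ i
    · have hc : Fintype.card (Fin (t * i) → Fin 12) = 12 ^ (t * i) := by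
        rw [Fintype.card_fun, Fintype.card_fin, Fintype.card_fin]
      have h3 : 3 ≤ Fintype.card (Fin (t * i) → Fin 12) := by
        rw [hc]
        calc 3 ≤ 12 ^ 1 := by norm_num
          _ ≤ 12 ^ (t * i) := Nat.pow_le_pow_right (by norm_num) (Nat.mul_pos ht hi)
      have hrow : ∀ p p' : Fin (t * i) → Fin 12, p ≠ p' → ∃ a, hT p a ≠ hT p' a := by
        intro p p' hp
        obtain ⟨a, a', haa⟩ := hT_rows p p' hp
        by_contra hcon
        have h4 : ∀ a, hT p a = hT p' a := fun a => by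
          by_contra hx
          exact hcon ⟨a, hx⟩
        apply haa
        rw [h4 a, h4 a', zmod_add_self, zmod_add_self]
      obtain ⟨κ, hκ, hmat⟩ := exists_matching (Fin (t * i) → Fin 12) h3 hT hrow hδ
      obtain ⟨S, hS⟩ := exists_nat_ge ((12 : ℝ) ^ (t * i) / κ)
      refine ⟨S, fun _ n s jc wc F hF hs h2s => ?_⟩
      have hsz : (Fintype.card (Fin (t * i) → Fin 12) : ℝ) * 2 ^ s ≤ κ * 2 ^ F.card := by
        rw [hc]
        push_cast
        have h5 : (12 : ℝ) ^ (t * i) ≤ κ * 2 ^ s := by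
          rw [div_le_iff₀ hκ] at hS
          have h6 : (S : ℝ) ≤ 2 ^ s := by
            have h7 : (S : ℝ) ≤ s := by exact_mod_cast hs
            have h8 : (s : ℝ) ≤ 2 ^ s := by exact_mod_cast (Nat.lt_two_pow_self (n := s)).le
            linarith
          calc (12 : ℝ) ^ (t * i) ≤ S * κ := hS
            _ ≤ 2 ^ s * κ := mul_le_mul_of_nonneg_right h6 hκ.le
            _ = κ * 2 ^ s := mul_comm _ _
        calc (12 : ℝ) ^ (t * i) * 2 ^ s ≤ (κ * 2 ^ s) * 2 ^ s :=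
              mul_le_mul_of_nonneg_right h5 (by positivity)
          _ = κ * 2 ^ (2 * s) := by ring
          _ ≤ κ * 2 ^ F.card :=
              mul_le_mul_of_nonneg_left (pow_le_pow_right₀ (by norm_num) h2s) hκ.le
      obtain ⟨M, hM1, hM2⟩ := hmat n s jc wc F hF hsz
      refine ⟨M, hM1, ?_⟩
      rw [hc] at hM2
      push_cast at hM2
      exact hM2
    · exact ⟨0, fun h => absurd h hi⟩
  choose S hS using hthr
  set Smax : ℕ := 6 + ∑ i ∈ range (I + 1), S i with hSmax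
  obtain ⟨n0, hn0⟩ := hdens Smax
  refine ⟨n0 + 1, fun n hn τ hτ0 hτ1 => ?_⟩
  obtain ⟨i, s, hi1, hiI, hs, hns, hup⟩ := hn0 n (by omega)
  have hc : Fintype.card (Fin (t * i) → Fin 12) = 12 ^ (t * i) := by
    rw [Fintype.card_fun, Fintype.card_fin, Fintype.card_fin]
  have hcpos : 0 < Fintype.card (Fin (t * i) → Fin 12) := by rw [hc]; positivity
  obtain ⟨jc, wc, F, hw, hinj, hF, hFc⟩ := columns (Fin (t * i) → Fin 12) hcpos n s
    (by rw [hc]; exact hns)
  have hSi : S i ≤ s := by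
    have h1 : S i ≤ ∑ i ∈ range (I + 1), S i :=
      single_le_sum (f := S) (fun _ _ => Nat.zero_le _) (mem_range.mpr (by omega))
    omega
  have hs6 : 6 ≤ s := by omega
  have h2s : 2 * s ≤ F.card := by
    rw [hFc, hc]
    refine (pow_ge s hs6).trans ?_
    rw [Nat.le_div_iff_mul_le (by positivity)]
    have h3 : (12 : ℝ) ^ (t * i) * 2 ^ s ≤ 4 * n := by
      refine hup.trans ?_
      have h4 : (1 + δ) ^ 2 ≤ 4 := by nlinarith
      exact mul_le_mul_of_nonneg_right h4 (Nat.cast_nonneg _)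
    have h5 : 12 ^ (t * i) * 2 ^ s ≤ 4 * n := by exact_mod_cast h3
    have h6 : 2 ^ s = 4 * 2 ^ (s - 2) := by
      rw [show (4 : ℕ) = 2 ^ 2 by norm_num, ← pow_add]
      congr 1
      omega
    rw [h6] at h5
    have h7 : 4 * (2 ^ (s - 2) * 12 ^ (t * i)) ≤ 4 * n := by
      calc 4 * (2 ^ (s - 2) * 12 ^ (t * i)) = 12 ^ (t * i) * (4 * 2 ^ (s - 2)) := by ring
        _ ≤ 4 * n := h5
    exact Nat.le_of_mul_le_mul_left h7 (by norm_num)
  obtain ⟨M, hM1, hM2⟩ := hS i hi1 n s jc wc F hF hSi h2s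
  have hNM : (M.card : ℝ) ≤ N n τ := by
    exact_mod_cast N_ge_matching (by omega) hT (fun j j' hj => hT_orth j j' hj) jc wc hw hinj M hM1
      hτ0 hτ1
  have hQ := card_Qt wc
  have h1 : (1 - δ) * (2 : ℝ) ^ n ≤ (1 - δ) * ((Nat.card (Qt wc) : ℝ) * 2 ^ s) :=
    mul_le_mul_of_nonneg_left hQ (by linarith)
  have h2 : (1 - δ) * ((Nat.card (Qt wc) : ℝ) * 2 ^ s) ≤ ((12 : ℝ) ^ (t * i) * M.card) * 2 ^ s := by
    have := mul_le_mul_of_nonneg_right hM2 (show (0 : ℝ) ≤ 2 ^ s by positivity)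
    linarith
  have h3 : ((12 : ℝ) ^ (t * i) * M.card) * 2 ^ s ≤ ((1 + δ) ^ 2 * n) * N n τ := by
    calc ((12 : ℝ) ^ (t * i) * M.card) * 2 ^ s = ((12 : ℝ) ^ (t * i) * 2 ^ s) * M.card := by ring
      _ ≤ ((1 + δ) ^ 2 * n) * N n τ := mul_le_mul hup hNM (Nat.cast_nonneg _) (by positivity)
  linarith

end Pool.Agent.Y352.WP
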