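import Pool.Agent.Y352.WP.Had

/-!
# Orthogonal arrays of strength two have width at least one
-/

set_option autoImplicit false

namespace Pool.Agent.Y352.WP

open Finset
open scoped RealInnerProductSpace
open Pool.Agent.Results.MP_1a6900_co.WidthPackingOrder

variable {ι : Type} [Fintype ι] [Nonempty ι]

theorem zmod_add_self (x : ZMod 2) : x + x = 0 := by
  revert x
  decide

/-- a combination of balanced and pairwise orthogonal sign columns oscillates by at least one -/
theorem osc_array {n : ℕ} (X : ι → Fin n → ZMod 2)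
    (h1 : ∀ c, ∑ x, sgn (X x c) = 0)
    (h2 : ∀ c c', c ≠ c' → ∑ x, sgn (X x c + X x c') = 0)
    (w : Fin n → ℝ) (hw : ∑ c, w c ^ 2 = 1 / 4) :
    ∃ x1 x2 : ι, 1 ≤ ∑ c, w c * sgn (X x1 c) - ∑ c, w c * sgn (X x2 c) := by
  set h : ι → ℝ := fun x => ∑ c, w c * sgn (X x c) with hh
  obtain ⟨v1, _, hv1⟩ := Finset.exists_max_image (Finset.univ : Finset ι) h univ_nonempty
  obtain ⟨v2, _, hv2⟩ := Finset.exists_min_image (Finset.univ : Finset ι) h univ_nonempty
  refine ⟨v1, v2, ?_⟩
  change 1 ≤ h v1 - h v2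
  have hcard : (Fintype.card ι : ℝ) > 0 := by
    exact_mod_cast Fintype.card_pos
  set Q : ℝ := (Fintype.card ι : ℝ) with hQ
  have hsum0 : ∑ v, h v = 0 := by
    simp only [hh]
    rw [Finset.sum_comm]
    apply Finset.sum_eq_zero
    intro i _
    rw [← Finset.mul_sum, h1 i, mul_zero]
  have hsum2 : ∑ v, h v ^ 2 = Q * (1 / 4) := by
    have e1 : ∀ v, h v ^ 2 = ∑ i, ∑ j, w i * w j * sgn (X v i + X v j) := by
      intro v
      simp only [hh]
      rw [sq, Finset.sum_mul_sum]
      refine Finset.sum_congr rfl fun i _ => Finset.sum_congr rfl fun j _ => ?_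
      rw [sgn_add]
      ring
    simp only [e1]
    rw [Finset.sum_comm]
    have e2 : ∀ i, ∑ v : ι, ∑ j, w i * w j * sgn (X v i + X v j) =
        Q * w i ^ 2 := by
      intro i
      rw [Finset.sum_comm]
      rw [Finset.sum_eq_single i]
      · simp only [zmod_add_self, sgn_zero, mul_one]
        rw [Finset.sum_const, Finset.card_univ, nsmul_eq_mul]
        ring
      · intro j _ hji
        rw [← Finset.mul_sum, h2 i j (Ne.symm hji), mul_zero]
      · intro hni
        exact absurd (Finset.mem_univ i) hni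
    rw [Finset.sum_congr rfl (fun i _ => e2 i), ← Finset.mul_sum, hw]
  have hpos : 0 ≤ ∑ v, (h v1 - h v) * (h v - h v2) := by
    apply Finset.sum_nonneg
    intro v _
    exact mul_nonneg (sub_nonneg.mpr (hv1 v (Finset.mem_univ _)))
      (sub_nonneg.mpr (hv2 v (Finset.mem_univ _)))
  have hexp : ∑ v, (h v1 - h v) * (h v - h v2) =
      (h v1 + h v2) * ∑ v, h v - ∑ v, h v ^ 2 - Q * (h v1 * h v2) := by
    have : ∀ v, (h v1 - h v) * (h v - h v2) = (h v1 + h v2) * h v - h v ^ 2 - h v1 * h v2 := by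
      intro v; ring
    simp only [this]
    rw [Finset.sum_sub_distrib, Finset.sum_sub_distrib, ← Finset.mul_sum, Finset.sum_const,
      Finset.card_univ, nsmul_eq_mul]
  rw [hexp, hsum0, hsum2] at hpos
  have h3 : h v1 * h v2 ≤ -(1 / 4) := by
    have : 0 ≤ Q * (-(1 / 4) - h v1 * h v2) := by linarith
    have := nonneg_of_mul_nonneg_right this hcard
    linarith
  have h4 : h v2 ≤ h v1 := hv1 v2 (Finset.mem_univ _)
  nlinarith [sq_nonneg (h v1 + h v2)]

/-- a set of vertices of the cube containing an orthogonal array of strength two has width at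
least one -/
theorem one_le_width_array {n : ℕ} (hn : 1 ≤ n) (X : ι → Fin n → ZMod 2)
    (h1 : ∀ c, ∑ x, sgn (X x c) = 0)
    (h2 : ∀ c c', c ≠ c' → ∑ x, sgn (X x c + X x c') = 0)
    (A : Set (EuclideanSpace ℝ (Fin n))) (hA : A ⊆ cube n)
    (hmem : ∀ x, emb (X x) ∈ A) : 1 ≤ width (convexHull ℝ A) := by
  unfold width
  apply le_csInf
  · refine ⟨_, EuclideanSpace.single ⟨0, hn⟩ (1 : ℝ), ?_, rfl⟩
    simp
  · rintro w ⟨u, hu, rfl⟩
    have hsq : ∑ i, (-(u i) / 2) ^ 2 = 1 / 4 := by
      have h1 : ∀ i, (-(u i) / 2) ^ 2 = (u i) ^ 2 / 4 := by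
        intro i
        ring
      simp only [h1]
      rw [← Finset.sum_div]
      have h2 : ‖u‖ ^ 2 = ∑ i, (u i) ^ 2 := by
        rw [EuclideanSpace.norm_eq, Real.sq_sqrt (Finset.sum_nonneg fun i _ => by positivity)]
        simp
      rw [← h2, hu]
      norm_num
    obtain ⟨v1, v2, h12⟩ := osc_array X h1 h2 _ hsq
    refine le_dirWidth A hA u 1 _ _ (hmem v1) (hmem v2) ?_
    rw [inner_emb, inner_emb]
    linarith

/-- The array built from a Hadamard matrix `h` over the row set `R`, one permutation of its rows for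
every vector of `F_2^s`, and an injective labelling of the coordinates by pairs (column of the
matrix, nonzero vector). -/
def arr {R : Type} {s n : ℕ} (h : R → R → ZMod 2) (jc : Fin n → R)
    (wc : Fin n → (Fin s → ZMod 2)) (π : (Fin s → ZMod 2) → Equiv.Perm R)
    (z : Fin n → ZMod 2) (x : R × (Fin s → ZMod 2)) : Fin n → ZMod 2 :=
  fun c => h (π (wc c) x.1) (jc c) + z c + x.2 ⬝ᵥ wc c

theorem arr_balanced {R : Type} [Fintype R] {s n : ℕ} (h : R → R → ZMod 2) (jc : Fin n → R)
    (wc : Fin n → (Fin s → ZMod 2)) (hw : ∀ c, wc c ≠ 0)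
    (π : (Fin s → ZMod 2) → Equiv.Perm R) (z : Fin n → ZMod 2) (c : Fin n) :
    ∑ x, sgn (arr h jc wc π z x c) = 0 := by
  unfold arr
  simp only [sgn_add]
  rw [Fintype.sum_prod_type]
  refine sum_eq_zero fun i _ => ?_
  dsimp only
  rw [← mul_sum, sum_sgn_eq_zero (wc c) (hw c), mul_zero]

theorem arr_orth {R : Type} [Fintype R] {s n : ℕ} (h : R → R → ZMod 2)
    (hh : ∀ j j', j ≠ j' → ∑ i, sgn (h i j + h i j') = 0) (jc : Fin n → R)
    (wc : Fin n → (Fin s → ZMod 2)) (hinj : ∀ c c', jc c = jc c' → wc c = wc c' → c = c')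
    (π : (Fin s → ZMod 2) → Equiv.Perm R) (z : Fin n → ZMod 2) (c c' : Fin n) (hc : c ≠ c') :
    ∑ x, sgn (arr h jc wc π z x c + arr h jc wc π z x c') = 0 := by
  have h1 : ∀ x : R × (Fin s → ZMod 2), sgn (arr h jc wc π z x c + arr h jc wc π z x c') =
      sgn (h (π (wc c) x.1) (jc c) + h (π (wc c') x.1) (jc c')) * sgn (z c + z c') *
        sgn (x.2 ⬝ᵥ (wc c + wc c')) := by
    intro x
    rw [← sgn_add, ← sgn_add]
    congr 1
    unfold arr
    rw [dotProduct_add]
    ring
  simp only [h1]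
  rw [Fintype.sum_prod_type]
  by_cases hw : wc c = wc c'
  · have hj : jc c ≠ jc c' := fun hj => hc (hinj c c' hj hw)
    have h0 : wc c + wc c' = 0 := by
      rw [hw]
      funext a
      exact zmod_add_self _
    simp only [h0, dotProduct_zero, sgn_zero, mul_one]
    rw [Finset.sum_comm]
    refine sum_eq_zero fun y _ => ?_
    rw [← sum_mul, hw]
    have h2 := hh _ _ hj
    rw [← Equiv.sum_comp (π (wc c')) (fun i => sgn (h i (jc c) + h i (jc c')))] at h2
    rw [h2, zero_mul]
  · refine sum_eq_zero fun i _ => ?_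
    dsimp only
    rw [← mul_sum, sum_sgn_eq_zero, mul_zero]
    intro h0
    apply hw
    have e4 : ∀ z y : ZMod 2, z + y = 0 → z = y := by decide
    funext a
    exact e4 _ _ (congrFun h0 a)

end Pool.Agent.Y352.WP
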