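import Pool.Agent.Y352.WP.Cnt
import Pool.Agent.TH437.SP.Nib

/-!
# Almost perfect packings of translates of orthogonal arrays
-/

set_option autoImplicit false

namespace Pool.Agent.Y352.WP

open Finset
open Pool.Agent.Results.MP_1a6900_co.WidthPackingOrder

section
variable {R : Type} {s n : ℕ}

/-- the representatives of the cosets -/
def base (h : R → R → ZMod 2) (jc : Fin n → R) (wc : Fin n → (Fin s → ZMod 2))
    (π : (Fin s → ZMod 2) → Equiv.Perm R) (i : R) : Fin n → ZMod 2 :=
  fun c => h (π (wc c) i) (jc c)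

/-- the group of cosets of the linear code -/
abbrev Qt (wc : Fin n → (Fin s → ZMod 2)) : Type := (Fin n → ZMod 2) ⧸ (code wc).range

/-- the projection -/
def mkq (wc : Fin n → (Fin s → ZMod 2)) (x : Fin n → ZMod 2) : Qt wc := QuotientAddGroup.mk x

/-- the tuples of permutations -/
abbrev Tup (s : ℕ) (R : Type) : Type := (Fin s → ZMod 2) → Equiv.Perm R

open Classical in
/-- the edges: pairs of a translation and a tuple of permutations -/
noncomputable def edge [Fintype R] (h : R → R → ZMod 2) (jc : Fin n → R)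
    (wc : Fin n → (Fin s → ZMod 2)) (e : Qt wc × Tup s R) : Finset (Qt wc) :=
  univ.image (fun i : R => mkq wc (base h jc wc e.2 i) + e.1)

theorem mem_edge [Fintype R] (h : R → R → ZMod 2) (jc : Fin n → R)
    (wc : Fin n → (Fin s → ZMod 2)) (e : Qt wc × Tup s R) (v : Qt wc) :
    v ∈ edge h jc wc e ↔ ∃ i : R, mkq wc (base h jc wc e.2 i) + e.1 = v := by
  classical
  unfold edge
  simp

theorem edge_nonempty [Fintype R] [Nonempty R] (h : R → R → ZMod 2) (jc : Fin n → R)
    (wc : Fin n → (Fin s → ZMod 2)) (e : Qt wc × Tup s R) :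
    (edge h jc wc e).Nonempty := by
  classical
  unfold edge
  exact univ_nonempty.image _

theorem edge_card [Fintype R] (h : R → R → ZMod 2) (jc : Fin n → R)
    (wc : Fin n → (Fin s → ZMod 2)) (e : Qt wc × Tup s R) :
    (edge h jc wc e).card ≤ Fintype.card R := by
  classical
  unfold edge
  exact card_image_le.trans (by rw [card_univ])

theorem deg_count [Fintype R] [DecidableEq R] (h : R → R → ZMod 2) (jc : Fin n → R)
    (wc : Fin n → (Fin s → ZMod 2)) [Fintype (Qt wc)] [DecidableEq (Qt wc)] (v : Qt wc) :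
    (univ.filter fun e : Qt wc × Tup s R => v ∈ edge h jc wc e).card ≤
      Fintype.card R * Fintype.card (Tup s R) := by
  classical
  have h1 : (univ.filter fun e : Qt wc × Tup s R => v ∈ edge h jc wc e) ⊆
      (univ : Finset (R × Tup s R)).image
        (fun p => (v - mkq wc (base h jc wc p.2 p.1), p.2)) := by
    intro e he
    rw [mem_filter, mem_edge] at he
    obtain ⟨-, i, hi⟩ := he
    rw [mem_image]
    refine ⟨(i, e.2), mem_univ _, ?_⟩
    ext1
    · show v - mkq wc (base h jc wc e.2 i) = e.1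
      rw [← hi]
      abel
    · rfl
  refine (card_le_card h1).trans (card_image_le.trans ?_)
  rw [card_univ, Fintype.card_prod]

theorem codeg_count [Fintype R] [DecidableEq R] (hR : 3 ≤ Fintype.card R)
    (h : R → R → ZMod 2) (hrow : ∀ p p', p ≠ p' → ∃ a, h p a ≠ h p' a) (jc : Fin n → R)
    (wc : Fin n → (Fin s → ZMod 2)) (F : Finset (Fin s → ZMod 2))
    (hF : ∀ w ∈ F, ∀ j, ∃ c, jc c = j ∧ wc c = w)
    [Fintype (Qt wc)] [DecidableEq (Qt wc)] (u v : Qt wc) (huv : u ≠ v) :
    2 ^ F.card * (univ.filter fun e : Qt wc × Tup s R =>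
        u ∈ edge h jc wc e ∧ v ∈ edge h jc wc e).card ≤
      Fintype.card R * Fintype.card R * 2 ^ s * Fintype.card (Tup s R) := by
  classical
  obtain ⟨d, hd⟩ := QuotientAddGroup.mk_surjective (u - v)
  -- the prescribed sums of rows
  set g : (Fin s → ZMod 2) → (Fin s → ZMod 2) → R → ZMod 2 := fun y w j =>
    if hc : ∃ c, jc c = j ∧ wc c = w then d hc.choose + y ⬝ᵥ w else 0 with hg
  set T : R × R × (Fin s → ZMod 2) → (Fin s → ZMod 2) → Finset (Equiv.Perm R) := fun p w =>
    if p.1 = p.2.1 then ∅ else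
      univ.filter fun σ : Equiv.Perm R => ∀ j, h (σ p.1) j + h (σ p.2.1) j = g p.2.2 w j with hT
  set B : R × R × (Fin s → ZMod 2) → Finset (Tup s R) := fun p =>
    if p.1 = p.2.1 then ∅ else univ.filter fun π : Tup s R => ∀ w ∈ F, π w ∈ T p w with hB
  have hBcard : ∀ p, 2 ^ F.card * (B p).card ≤ Fintype.card (Tup s R) := by
    intro p
    by_cases hp : p.1 = p.2.1
    · have : B p = ∅ := by simp only [hB]; rw [if_pos hp]
      rw [this]; simp
    · have e1 : B p = univ.filter fun π : Tup s R => ∀ w ∈ F, π w ∈ T p w := by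
        simp only [hB]; rw [if_neg hp]
      rw [e1]
      apply tuple_card_le F (T p)
      intro w _
      have e2 : T p w = univ.filter fun σ : Equiv.Perm R =>
          ∀ j, h (σ p.1) j + h (σ p.2.1) j = g p.2.2 w j := by
        simp only [hT]; rw [if_neg hp]
      rw [e2]
      exact two_card_perm_le h hrow p.1 p.2.1 hp hR _
  have hsub : (univ.filter fun e : Qt wc × Tup s R =>
      u ∈ edge h jc wc e ∧ v ∈ edge h jc wc e) ⊆
      (univ : Finset (R × R × (Fin s → ZMod 2))).biUnion fun p =>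
        (B p).image fun π => (u - mkq wc (base h jc wc π p.1), π) := by
    intro e he
    rw [mem_filter, mem_edge, mem_edge] at he
    obtain ⟨-, ⟨i, hi⟩, ⟨i', hi'⟩⟩ := he
    have hii : i ≠ i' := by
      rintro rfl
      exact huv (hi.symm.trans hi')
    have h1 : (QuotientAddGroup.mk d : Qt wc) =
        QuotientAddGroup.mk (base h jc wc e.2 i - base h jc wc e.2 i') := by
      rw [hd, ← hi, ← hi', QuotientAddGroup.mk_sub]
      show _ = mkq wc _ - mkq wc _
      abel
    rw [QuotientAddGroup.eq] at h1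
    obtain ⟨y, hy⟩ := h1
    have h2 : ∀ c, h (e.2 (wc c) i) (jc c) + h (e.2 (wc c) i') (jc c) = d c + y ⬝ᵥ wc c := by
      intro c
      have h3 : y ⬝ᵥ wc c = -d c + (h (e.2 (wc c) i) (jc c) - h (e.2 (wc c) i') (jc c)) :=
        congrFun hy c
      have h4 : ∀ a b q r : ZMod 2, q = -r + (a - b) → a + b = r + q := by decide
      exact h4 _ _ _ _ h3
    rw [mem_biUnion]
    refine ⟨(i, i', y), mem_univ _, ?_⟩
    rw [mem_image]
    refine ⟨e.2, ?_, ?_⟩
    · have e1 : B (i, i', y) = univ.filter fun π : Tup s R => ∀ w ∈ F, π w ∈ T (i, i', y) w := by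
        simp only [hB]; rw [if_neg hii]
      rw [e1, mem_filter]
      refine ⟨mem_univ _, fun w hw => ?_⟩
      have e2 : T (i, i', y) w = univ.filter fun σ : Equiv.Perm R =>
          ∀ j, h (σ i) j + h (σ i') j = g y w j := by
        simp only [hT]; rw [if_neg hii]
      rw [e2, mem_filter]
      refine ⟨mem_univ _, fun j => ?_⟩
      have hc := hF w hw j
      have e3 : g y w j = d hc.choose + y ⬝ᵥ w := by
        simp only [hg]; rw [dif_pos hc]
      obtain ⟨e4, e5⟩ := hc.choose_spec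
      rw [e3]
      have := h2 hc.choose
      rw [e4, e5] at this
      exact this
    · ext1
      · show u - mkq wc (base h jc wc e.2 i) = e.1
        rw [← hi]
        abel
      · rfl
  calc 2 ^ F.card * (univ.filter fun e : Qt wc × Tup s R =>
        u ∈ edge h jc wc e ∧ v ∈ edge h jc wc e).card
      ≤ 2 ^ F.card * ∑ p : R × R × (Fin s → ZMod 2), (B p).card := by
        refine Nat.mul_le_mul_left _ ((card_le_card hsub).trans (card_biUnion_le.trans ?_))
        exact sum_le_sum fun p _ => card_image_le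
    _ = ∑ p : R × R × (Fin s → ZMod 2), 2 ^ F.card * (B p).card := by rw [mul_sum]
    _ ≤ ∑ _p : R × R × (Fin s → ZMod 2), Fintype.card (Tup s R) :=
        sum_le_sum fun p _ => hBcard p
    _ = Fintype.card R * Fintype.card R * 2 ^ s * Fintype.card (Tup s R) := by
        rw [sum_const, card_univ, smul_eq_mul, Fintype.card_prod, Fintype.card_prod,
          Fintype.card_fun, Fintype.card_fin, ZMod.card]
        ring

/-- the nibble theorem applied to the edges -/
theorem exists_matching (R : Type) [Fintype R] [DecidableEq R] (hR : 3 ≤ Fintype.card R)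
    (h : R → R → ZMod 2) (hrow : ∀ p p', p ≠ p' → ∃ a, h p a ≠ h p' a) {θ : ℝ} (hθ : 0 < θ) :
    ∃ κ : ℝ, 0 < κ ∧ ∀ (n s : ℕ) (jc : Fin n → R) (wc : Fin n → (Fin s → ZMod 2))
      (F : Finset (Fin s → ZMod 2)), (∀ w ∈ F, ∀ j, ∃ c, jc c = j ∧ wc c = w) →
      (Fintype.card R : ℝ) * 2 ^ s ≤ κ * 2 ^ F.card →
      ∃ M : Finset (Qt wc × Tup s R),
        (∀ e ∈ M, ∀ f ∈ M, e ≠ f → Disjoint (edge h jc wc e) (edge h jc wc f)) ∧
        (1 - θ) * (Nat.card (Qt wc) : ℝ) ≤ Fintype.card R * (M.card : ℝ) := by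
  obtain ⟨κ, hκ, hnib⟩ := Pool.Agent.TH437.SP.nibble_T (Fintype.card R) θ hθ
  refine ⟨κ, hκ, fun n s jc wc F hF hsize => ?_⟩
  have : Nonempty R := Fintype.card_pos_iff.mp (by omega)
  have : Finite (Qt wc) := Quotient.finite _
  letI : Fintype (Qt wc) := Fintype.ofFinite _
  letI : DecidableEq (Qt wc) := Classical.decEq _
  set r : ℝ := (Fintype.card R : ℝ) with hr
  set P : ℝ := (Fintype.card (Tup s R) : ℝ) with hP
  have hr3 : (3 : ℝ) ≤ r := by rw [hr]; exact_mod_cast hR
  have hPF : (2 : ℝ) ^ F.card ≤ P := by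
    have h1 : 2 ≤ Fintype.card (Equiv.Perm R) := by
      rw [Fintype.card_perm]
      exact le_trans (by omega) (Nat.self_le_factorial (Fintype.card R))
    have h2 : 2 ^ F.card ≤ Fintype.card (Tup s R) := by
      rw [Fintype.card_fun]
      calc 2 ^ F.card ≤ 2 ^ Fintype.card (Fin s → ZMod 2) :=
            Nat.pow_le_pow_right (by norm_num) (card_le_univ F)
        _ ≤ _ := Nat.pow_le_pow_left h1 _
    rw [hP]
    exact_mod_cast h2
  have h2F : (0 : ℝ) < 2 ^ F.card := by positivity
  have hPpos : 0 < P := lt_of_lt_of_le h2F hPF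
  have hrpos : 0 < r := by linarith
  have hrP : 0 < r * P := mul_pos hrpos hPpos
  have hs1 : (1 : ℝ) ≤ 2 ^ s := one_le_pow₀ (by norm_num)
  have hdeg : ∀ v : Qt wc, ∑ _e ∈ univ.filter (fun e : Qt wc × Tup s R => v ∈ edge h jc wc e),
      (1 / (r * P)) ≤ 1 := by
    intro v
    rw [sum_const, nsmul_eq_mul, mul_one_div, div_le_one hrP]
    have := deg_count h jc wc v
    rw [hr, hP]
    exact_mod_cast this
  have hcod : ∀ u v : Qt wc, u ≠ v → ∑ _e ∈ univ.filter (fun e : Qt wc × Tup s R =>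
      u ∈ edge h jc wc e ∧ v ∈ edge h jc wc e), (1 / (r * P)) ≤ κ := by
    intro u v huv
    rw [sum_const, nsmul_eq_mul, mul_one_div, div_le_iff₀ hrP]
    have h4 := codeg_count hR h hrow jc wc F hF u v huv
    have h5 : (2 : ℝ) ^ F.card * ((univ.filter fun e : Qt wc × Tup s R =>
        u ∈ edge h jc wc e ∧ v ∈ edge h jc wc e).card : ℝ) ≤ r * r * 2 ^ s * P := by
      rw [hr, hP]
      exact_mod_cast h4
    have h6 : r * r * 2 ^ s * P ≤ 2 ^ F.card * (κ * (r * P)) := by
      have := mul_le_mul_of_nonneg_right hsize hrP.le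
      nlinarith
    exact le_of_mul_le_mul_left (h5.trans h6) h2F
  have hwt : ∀ _e : Qt wc × Tup s R, 1 / (r * P) ≤ κ := by
    intro _
    rw [div_le_iff₀ hrP]
    have h7 : (2 : ℝ) ^ F.card * 1 ≤ 2 ^ F.card * (κ * (r * P)) := by
      have h8 : (2 : ℝ) ^ F.card * (κ * (r * P)) = (κ * 2 ^ F.card) * (r * P) := by ring
      rw [h8, mul_one]
      have h9 : 1 * (2 : ℝ) ^ F.card ≤ (κ * 2 ^ F.card) * (r * P) := by
        have h10 : (1 : ℝ) ≤ κ * 2 ^ F.card := by nlinarith
        have h11 : (2 : ℝ) ^ F.card ≤ r * P := by nlinarith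
        exact mul_le_mul h10 h11 h2F.le (by linarith)
      linarith
    exact le_of_mul_le_mul_left h7 h2F
  obtain ⟨M, hM1, -, hM3⟩ := hnib (Qt wc × Tup s R) (Qt wc) (edge h jc wc)
    (fun _ => 1 / (r * P)) (fun _ => by positivity) (edge_nonempty h jc wc)
    (edge_card h jc wc) hdeg hcod hwt
  refine ⟨M, hM1, ?_⟩
  rw [sum_const, card_univ, nsmul_eq_mul, Fintype.card_prod] at hM3
  rw [Nat.card_eq_fintype_card]
  push_cast at hM3
  rw [← hP] at hM3
  have h3 : (1 - θ) * ((Fintype.card (Qt wc) : ℝ) * P * (1 / (r * P))) * r =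
      (1 - θ) * (Fintype.card (Qt wc) : ℝ) := by
    field_simp
  rw [← h3]
  have h4 := mul_le_mul_of_nonneg_right hM3 hrpos.le
  linarith [mul_comm r (M.card : ℝ)]

end

end Pool.Agent.Y352.WP
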